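import Pool.Agent.helper52.IR.SpecC

/-! # Row ir:EQC (MP_07c750_an): the equality case -/

set_option autoImplicit false

open MeasureTheory Filter Set Topology
open scoped ENNReal

namespace Pool.Agent.IR

theorem EQC_proof (hMEN : MEN_stmt) : EQC_stmt := by
  intro X _ μ f hμ hf h01 hF h12 hint
  have hfi : Integrable f μ := by
    refine (integrable_const (1 : ℝ)).mono' hf.aestronglyMeasurable (ae_of_all _ fun x => ?_)
    rw [Real.norm_of_nonneg (h01 x).1]
    exact (h01 x).2
  have h1 := hMEN X μ f hμ hf h01 hF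
  obtain ⟨g, hg⟩ : ∃ g : X → ℝ, g = fun x => max 0 ((2 * f x - 1) * (1 - f x)) := ⟨_, rfl⟩
  have hgm : Measurable g := by
    rw [hg]
    exact measurable_const.max (((measurable_const.mul hf).sub measurable_const).mul (measurable_const.sub hf))
  have hg0 : ∀ x, 0 ≤ g x := fun x => by
    rw [hg]
    exact le_max_left _ _
  have hgi : Integrable g μ := by
    refine (integrable_const (1 : ℝ)).mono' hgm.aestronglyMeasurable (ae_of_all _ fun x => ?_)
    rw [Real.norm_of_nonneg (hg0 x), hg]
    have h2 := h01 x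
    refine max_le zero_le_one ?_
    nlinarith
  have hgz : ∫ x, g x ∂μ = 0 := by
    refine le_antisymm ?_ (integral_nonneg hg0)
    rw [hg]
    linarith
  have hae : g =ᵐ[μ] 0 := (integral_eq_zero_iff_of_nonneg hg0 hgi).1 hgz
  have hae1 : ∀ᵐ x ∂μ, f x ≤ 1 / 2 ∨ f x = 1 := by
    filter_upwards [hae] with x hx
    have h2 : (2 * f x - 1) * (1 - f x) ≤ 0 := by
      have h3 : g x = 0 := hx
      rw [hg] at h3
      have h4 := le_max_right 0 ((2 * f x - 1) * (1 - f x))
      have h5 : max 0 ((2 * f x - 1) * (1 - f x)) = 0 := h3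
      linarith
    by_contra hcon
    push Not at hcon
    have h3 : f x < 1 := lt_of_le_of_ne (h01 x).2 hcon.2
    nlinarith [hcon.1]
  have hS1 : MeasurableSet {x | f x = 1} := hf (measurableSet_singleton 1)
  have h2 : 1 ≤ μ.real {x | f x ≤ 1 / 2} + μ.real {x | f x = 1} := by
    have h3 : ({x | f x ≤ 1 / 2} ∪ {x | f x = 1} : Set X) =ᵐ[μ] (univ : Set X) := by
      filter_upwards [hae1] with x hx
      have h4 : x ∈ ({x | f x ≤ 1 / 2} ∪ {x | f x = 1} : Set X) := hx
      exact eq_iff_iff.2 ⟨fun _ => trivial, fun _ => h4⟩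
    have h5 : μ.real ({x | f x ≤ 1 / 2} ∪ {x | f x = 1} : Set X) = 1 := by
      rw [measureReal_congr h3, probReal_univ]
    exact h5.symm.le.trans (measureReal_union_le _ _)
  obtain ⟨i, hi⟩ : ∃ i : X → ℝ, i = ({x | f x = 1} : Set X).indicator 1 := ⟨_, rfl⟩
  have hii : ∫ x, i x ∂μ = μ.real {x | f x = 1} := by
    rw [hi]
    exact integral_indicator_one hS1
  have hin : Integrable i μ := by
    rw [hi]
    exact (integrable_const (1 : ℝ)).indicator hS1
  have hle : ∀ x, i x ≤ f x := by
    intro x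
    rw [hi]
    by_cases h3 : x ∈ {x | f x = 1}
    · rw [indicator_of_mem h3]
      exact le_of_eq (Eq.symm h3)
    · rw [indicator_of_notMem h3]
      exact (h01 x).1
  have h3 : μ.real {x | f x = 1} ≤ ∫ x, f x ∂μ := by
    rw [← hii]
    exact integral_mono hin hfi hle
  have ha : μ.real {x | f x = 1} = 1 / 2 := by linarith
  have hs : ∫ x, (f x - i x) ∂μ = 0 := by
    rw [integral_sub hfi hin, hii]
    linarith
  have h4 : (fun x => f x - i x) =ᵐ[μ] 0 :=
    (integral_eq_zero_iff_of_nonneg (fun x => sub_nonneg.2 (hle x)) (hfi.sub hin)).1 hs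
  have h5 : ({x | f x = 0} : Set X) =ᵐ[μ] (({x | f x = 1} : Set X)ᶜ : Set X) := by
    filter_upwards [h4] with x hx
    have h6 : f x - i x = 0 := hx
    rw [hi] at h6
    refine eq_iff_iff.2 ⟨fun (h7 : f x = 0) => ?_, fun h7 => ?_⟩
    · intro (h8 : f x = 1)
      rw [h7] at h8
      exact zero_ne_one h8
    · show f x = 0
      rw [indicator_of_notMem h7, sub_zero] at h6
      exact h6
  refine ⟨?_, ha⟩
  rw [measureReal_congr h5, probReal_compl_eq_one_sub hS1, ha]
  norm_num

end Pool.Agent.IR
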